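import Pool.Agent.Helper53.Comp.GoalsG

/-! Packet G2b: the recursion for the continuous extension of divided differences. -/

namespace Mono

namespace Comp

namespace G2b

open Finset Filter Topology

variable {k : ℕ}

/-- Nodes indexed by an arbitrary finite type. -/
noncomputable def msI {ι : Type} [Fintype ι] (blk : ι → Fin k) (ρ : ι → ℝ) :
    Fin k → Multiset ℝ :=
  fun i => (univ.filter (fun j => blk j = i)).val.map ρ

theorem msI_equiv {ι κ : Type} [Fintype ι] [Fintype κ] (e : ι ≃ κ) (blk : κ → Fin k)
    (ρ : κ → ℝ) : msI (blk ∘ e) (ρ ∘ e) = msI blk ρ := by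
  funext i
  unfold msI
  have h : (univ.filter (fun j => blk j = i)) =
      (univ.filter (fun j => (blk ∘ e) j = i)).map e.toEmbedding := by
    ext j
    simp only [Finset.mem_filter, Finset.mem_univ, true_and, Finset.mem_map, Function.comp, Equiv.coe_toEmbedding]
    constructor
    · intro h
      exact ⟨e.symm j, by simpa using h, by simp⟩
    · rintro ⟨a, h, rfl⟩
      exact h
  rw [h, Finset.map_val, Multiset.map_map]
  rfl

/-- One more node. -/
def blkO {ι : Type} (i : Fin k) (blk : ι → Fin k) : Option ι → Fin k := fun o => o.elim i blk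

/-- One more node. -/
def rhoO {ι : Type} (x : ℝ) (ρ : ι → ℝ) : Option ι → ℝ := fun o => o.elim x ρ

theorem msI_option {ι : Type} [Fintype ι] (i : Fin k) (blk : ι → Fin k) (x : ℝ) (ρ : ι → ℝ) :
    msI (blkO i blk) (rhoO x ρ) = Function.update (msI blk ρ) i (x ::ₘ msI blk ρ i) := by
  funext i'
  by_cases h : i' = i
  · subst h
    rw [Function.update_self]
    unfold msI
    have e : (univ.filter (fun j => blkO i' blk j = i')) =
        Finset.cons none ((univ.filter (fun j => blk j = i')).map Function.Embedding.some)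
          (by simp) := by
      ext j
      rw [Finset.mem_filter, Finset.mem_cons, Finset.mem_map]
      cases j with
      | none => simp [blkO]
      | some a => simp [blkO]
    rw [e, Finset.cons_val, Multiset.map_cons, Finset.map_val, Multiset.map_map]
    rfl
  · rw [Function.update_of_ne h]
    unfold msI
    have e : (univ.filter (fun j => blkO i blk j = i')) =
        (univ.filter (fun j => blk j = i')).map Function.Embedding.some := by
      ext j
      rw [Finset.mem_filter, Finset.mem_map]
      cases j with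
      | none => simp [blkO, Ne.symm h]
      | some a => simp [blkO]
    rw [e, Finset.map_val, Multiset.map_map]
    rfl

theorem exists_chart (M : Fin k → Multiset ℝ) : ∃ (ι : Type) (_ : Fintype ι)
    (blk : ι → Fin k) (ρ : ι → ℝ), msI blk ρ = M := by
  classical
  refine ⟨(i : Fin k) × Fin (M i).toList.length, inferInstance, Sigma.fst,
    fun p => (M p.1).toList.get p.2, ?_⟩
  funext i
  unfold msI
  have e : (univ.filter (fun j : (i : Fin k) × Fin (M i).toList.length => j.1 = i)) =
      (univ : Finset (Fin (M i).toList.length)).map (Function.Embedding.sigmaMk i) := by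
    ext ⟨a, b⟩
    simp only [Finset.mem_filter, Finset.mem_univ, true_and, Finset.mem_map, Function.Embedding.sigmaMk_apply]
    constructor
    · rintro rfl
      exact ⟨b, rfl⟩
    · rintro ⟨b', h⟩
      exact (Sigma.mk.inj_iff.1 h).1.symm
  rw [e, Finset.map_val, Multiset.map_map]
  have e2 : ((fun p : (i : Fin k) × Fin (M i).toList.length => (M p.1).toList.get p.2) ∘
      (Function.Embedding.sigmaMk i)) = (M i).toList.get := rfl
  rw [e2, Fin.univ_val_map, List.ofFn_get, Multiset.coe_toList]

variable {Φ : Fan k} {h : (Fin k → ℝ) → ℝ} {F : (Fin k → Multiset ℝ) → ℝ}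

theorem tendsto_msI (hF : Ext Φ h F) {ι : Type} [Fintype ι] (blk : ι → Fin k) (ρ θ : ι → ℝ)
    (hs : Function.Surjective blk) (hpos : ∀ j, 0 < ρ j) :
    Tendsto (fun ε : ℝ => F (msI blk (ρ + ε • θ))) (𝓝[>] 0) (𝓝 (F (msI blk ρ))) := by
  have e := Fintype.equivFin ι
  have h1 := hF.1 (Fintype.card ι) (blk ∘ e.symm) (ρ ∘ e.symm) (θ ∘ e.symm)
    (hs.comp e.symm.surjective) (fun j => hpos _)
  have h2 : ∀ r : ι → ℝ, ms (blk ∘ e.symm) (r ∘ e.symm) = msI blk r := by
    intro r
    exact msI_equiv e.symm blk r
  rw [h2] at h1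
  refine h1.congr fun ε => ?_
  rw [← h2]
  rfl

theorem exists_dir (hG : GenDir) (Φ : Fan k) {ι : Type} [Fintype ι] (blk : ι → Fin k)
    (ρ : ι → ℝ) (hs : Function.Surjective blk) : ∃ θ : ι → ℝ, ∀ᶠ ε : ℝ in 𝓝[>] 0,
      (∀ c : Fin k → ι, (∀ i, blk (c i) = i) → Φ.Generic (fun i => (ρ + ε • θ) (c i))) ∧
      ∀ j j', j ≠ j' → blk j = blk j' → (ρ + ε • θ) j ≠ (ρ + ε • θ) j' := by
  have e := Fintype.equivFin ι
  obtain ⟨θ, -, h1⟩ := hG (Fintype.card ι) k Φ (blk ∘ e.symm) (ρ ∘ e.symm)
    (hs.comp e.symm.surjective)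
  refine ⟨θ ∘ e, h1.mono fun ε h2 => ⟨fun c hc => ?_, fun j j' hj hb => ?_⟩⟩
  · have h3 := h2.1 (fun i => e (c i)) (by
      simp only [sel, mem_filter, mem_univ, true_and, Function.comp, Equiv.symm_apply_apply]
      exact hc)
    convert h3 using 2 with i
    simp
  · have h3 := h2.2 (e j) (e j') (fun h => hj (e.injective h)) (by simpa using hb)
    simpa using h3

theorem fin_rec (h1 : DDSRec) (hF : Ext Φ h F) (S : Fin k → Finset ℝ) (i : Fin k) (x y : ℝ)
    (hx : x ∉ S i) (hy : y ∉ S i) (hxy : x ≠ y) (hne : ∀ i', i' ≠ i → (S i').Nonempty)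
    (hpos : ∀ i', ∀ z ∈ S i', 0 < z) (hx0 : 0 < x) (hy0 : 0 < y)
    (hgen : ∀ z ∈ Fintype.piFinset (Function.update S i (insert x (insert y (S i)))),
      Φ.Generic z) :
    (y - x) * F (Function.update (fun i' => (S i').val) i (x ::ₘ y ::ₘ (S i).val)) =
      F (Function.update (fun i' => (S i').val) i (x ::ₘ (S i).val)) -
        F (Function.update (fun i' => (S i').val) i (y ::ₘ (S i).val)) := by
  classical
  have key : ∀ l : Finset ℝ, l.Nonempty → l ⊆ insert x (insert y (S i)) →
      F (Function.update (fun i' => (S i').val) i l.val) = DDS (Function.update S i l) h := by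
    intro l hl hsub
    have h2 := hF.2 (Function.update S i l) (fun i' => by
      by_cases h : i' = i
      · subst h; rwa [Function.update_self]
      · rw [Function.update_of_ne h]; exact hne i' h) (fun i' z hz => by
      by_cases h : i' = i
      · subst h
        rw [Function.update_self] at hz
        rcases Finset.mem_insert.1 (hsub hz) with rfl | hz
        · exact hx0
        rcases Finset.mem_insert.1 hz with rfl | hz
        · exact hy0
        exact hpos _ z hz
      · rw [Function.update_of_ne h] at hz; exact hpos i' z hz) (fun z hz => by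
      refine hgen z (Fintype.mem_piFinset.2 fun i' => ?_)
      have h3 := Fintype.mem_piFinset.1 hz i'
      by_cases h : i' = i
      · subst h
        rw [Function.update_self] at h3 ⊢
        exact hsub h3
      · rw [Function.update_of_ne h] at h3 ⊢
        exact h3)
    rw [← h2]
    congr 1
    funext i'
    by_cases h : i' = i
    · subst h; rw [Function.update_self, Function.update_self]
    · rw [Function.update_of_ne h, Function.update_of_ne h]
  have h2 := h1 k S i (S i) x y h hx hy hxy
  have hx2 : x ∉ insert y (S i) := by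
    rw [Finset.mem_insert]
    push Not
    exact ⟨hxy, hx⟩
  rw [← key _ (Finset.insert_nonempty _ _) (Finset.Subset.refl _),
    ← key _ (Finset.insert_nonempty _ _) (by
      intro z hz
      rcases Finset.mem_insert.1 hz with rfl | hz
      · exact Finset.mem_insert_self _ _
      · exact Finset.mem_insert_of_mem (Finset.mem_insert_of_mem hz)),
    ← key _ (Finset.insert_nonempty _ _) (Finset.subset_insert _ _),
    Finset.insert_val_of_notMem hx2, Finset.insert_val_of_notMem hy,
    Finset.insert_val_of_notMem hx] at h2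
  exact h2

/-- The recursion for the nodes of a generic chart. -/
theorem chart_rec (h1 : DDSRec) (hF : Ext Φ h F) {ι : Type} [Fintype ι] (blk : ι → Fin k)
    (i : Fin k) (ρ : Option (Option ι) → ℝ)
    (hne : ∀ i', i' ≠ i → ∃ j, blk j = i') (hpos : ∀ j, 0 < ρ j)
    (hg1 : ∀ c : Fin k → Option (Option ι), (∀ i', blkO i (blkO i blk) (c i') = i') →
      Φ.Generic (fun i' => ρ (c i')))
    (hg2 : ∀ j j', j ≠ j' → blkO i (blkO i blk) j = blkO i (blkO i blk) j' → ρ j ≠ ρ j') :
    (ρ (some none) - ρ none) * F (msI (blkO i (blkO i blk)) ρ) =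
      F (msI (blkO i blk) (rhoO (ρ none) (fun a => ρ (some (some a))))) -
      F (msI (blkO i blk) (rhoO (ρ (some none)) (fun a => ρ (some (some a))))) := by
  classical
  set x := ρ none with hx
  set y := ρ (some none) with hy
  set r : ι → ℝ := fun a => ρ (some (some a)) with hr
  have hρ : ρ = rhoO x (rhoO y r) := by
    funext j
    match j with
    | none => rfl
    | some none => rfl
    | some (some a) => rfl
  have hms : msI (blkO i (blkO i blk)) ρ =
      Function.update (msI blk r) i (x ::ₘ y ::ₘ msI blk r i) := by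
    rw [hρ, msI_option, msI_option, Function.update_self, Function.update_idem]
  have hnd : ∀ i', (msI blk r i').Nodup := by
    intro i'
    refine Multiset.Nodup.map_on ?_ (Finset.nodup _)
    intro a ha b hb hab
    by_contra hne'
    refine hg2 (some (some a)) (some (some b)) (fun h => hne' ?_) ?_ hab
    · exact Option.some_injective _ (Option.some_injective _ h)
    · have ha' := (Finset.mem_filter.1 ha).2
      have hb' := (Finset.mem_filter.1 hb).2
      show blk a = blk b
      rw [ha', hb']
  let S : Fin k → Finset ℝ := fun i' => ⟨msI blk r i', hnd i'⟩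
  have hmem : ∀ i' z, z ∈ S i' ↔ ∃ a, blk a = i' ∧ r a = z := by
    intro i' z
    show z ∈ msI blk r i' ↔ _
    unfold msI
    rw [Multiset.mem_map]
    constructor
    · rintro ⟨a, ha, rfl⟩
      exact ⟨a, (Finset.mem_filter.1 ha).2, rfl⟩
    · rintro ⟨a, ha, rfl⟩
      exact ⟨a, Finset.mem_filter.2 ⟨Finset.mem_univ _, ha⟩, rfl⟩
  have h2 := fin_rec h1 hF S i x y
    (fun h => by
      obtain ⟨a, ha, hz⟩ := (hmem _ _).1 h
      exact hg2 (some (some a)) none (by simp) ha hz)
    (fun h => by
      obtain ⟨a, ha, hz⟩ := (hmem _ _).1 h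
      exact hg2 (some (some a)) (some none) (by simp) ha hz)
    (hg2 none (some none) (by simp) rfl)
    (fun i' hi' => by
      obtain ⟨j, hj⟩ := hne i' hi'
      exact ⟨r j, (hmem _ _).2 ⟨j, hj, rfl⟩⟩)
    (fun i' z hz => by
      obtain ⟨a, ha, rfl⟩ := (hmem _ _).1 hz
      exact hpos _)
    (hpos _) (hpos _)
    (fun z hz => by
      have h3 : ∀ i', ∃ j, blkO i (blkO i blk) j = i' ∧ ρ j = z i' := by
        intro i'
        have h4 := Fintype.mem_piFinset.1 hz i'
        by_cases h : i' = i
        · subst h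
          rw [Function.update_self, Finset.mem_insert, Finset.mem_insert] at h4
          rcases h4 with h4 | h4 | h4
          · exact ⟨none, rfl, h4.symm⟩
          · exact ⟨some none, rfl, h4.symm⟩
          · obtain ⟨a, ha, hz⟩ := (hmem _ _).1 h4
            exact ⟨some (some a), ha, hz⟩
        · rw [Function.update_of_ne h] at h4
          obtain ⟨a, ha, hz⟩ := (hmem _ _).1 h4
          exact ⟨some (some a), ha, hz⟩
      choose c hc using h3
      have h5 := hg1 c (fun i' => (hc i').1)
      have h6 : (fun i' => ρ (c i')) = z := funext fun i' => (hc i').2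
      rwa [h6] at h5)
  rw [hms, msI_option, msI_option]
  exact h2

end G2b

open Finset Filter Topology G2b in
/-- Packet G2b. -/
theorem extRec (h1 : DDSRec) (h2 : GenDir) : ExtRec := by
  classical
  intro k Φ h F hF M hM i m x y hm hx hy hxy
  show (y - x) * F (Function.update M i (x ::ₘ y ::ₘ m)) =
    F (Function.update M i (x ::ₘ m)) - F (Function.update M i (y ::ₘ m))
  obtain ⟨ι, inst, blk, ρ, hρ⟩ := exists_chart (Function.update M i m)
  have hpos : ∀ j, 0 < ρ j := by
    intro j
    have h3 : ρ j ∈ msI blk ρ (blk j) := by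
      unfold msI
      exact Multiset.mem_map.2 ⟨j, Finset.mem_filter.2 ⟨Finset.mem_univ _, rfl⟩, rfl⟩
    rw [hρ] at h3
    by_cases h4 : blk j = i
    · rw [h4, Function.update_self] at h3
      exact hm _ h3
    · rw [Function.update_of_ne h4] at h3
      exact (hM _).2 _ h3
  have hne : ∀ i', i' ≠ i → ∃ j, blk j = i' := by
    intro i' hi'
    have h3 : msI blk ρ i' ≠ 0 := by
      rw [hρ, Function.update_of_ne hi']
      exact (hM i').1
    obtain ⟨z, hz⟩ := Multiset.exists_mem_of_ne_zero h3
    obtain ⟨j, hj, -⟩ := Multiset.mem_map.1 hz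
    exact ⟨j, (Finset.mem_filter.1 hj).2⟩
  have hs1 : Function.Surjective (blkO i blk) := by
    intro i'
    by_cases h3 : i' = i
    · exact ⟨none, h3.symm⟩
    · obtain ⟨j, hj⟩ := hne i' h3
      exact ⟨some j, hj⟩
  have hs2 : Function.Surjective (blkO i (blkO i blk)) := by
    intro i'
    obtain ⟨j, hj⟩ := hs1 i'
    exact ⟨some j, hj⟩
  have hpos1 : ∀ z, 0 < z → ∀ j, 0 < rhoO z ρ j := by
    intro z hz j
    cases j with
    | none => exact hz
    | some a => exact hpos a
  have hpos2 : ∀ j, 0 < rhoO x (rhoO y ρ) j := by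
    intro j
    cases j with
    | none => exact hx
    | some a => exact hpos1 y hy a
  obtain ⟨θ, hθ⟩ := exists_dir h2 Φ (blkO i (blkO i blk)) (rhoO x (rhoO y ρ)) hs2
  have hpe : ∀ᶠ ε : ℝ in 𝓝[>] 0, ∀ j, 0 < (rhoO x (rhoO y ρ) + ε • θ) j := by
    rw [Filter.eventually_all]
    intro j
    have h3 : Tendsto (fun ε : ℝ => (rhoO x (rhoO y ρ) + ε • θ) j) (𝓝[>] 0)
        (𝓝 (rhoO x (rhoO y ρ) j)) := by
      have h4 : Tendsto (fun ε : ℝ => rhoO x (rhoO y ρ) j + ε * θ j) (𝓝 0)
          (𝓝 (rhoO x (rhoO y ρ) j + 0 * θ j)) := by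
        refine Continuous.tendsto ?_ 0
        fun_prop
      rw [zero_mul, add_zero] at h4
      exact h4.mono_left nhdsWithin_le_nhds
    exact h3.eventually (lt_mem_nhds (hpos2 j))
  have heq : ∀ᶠ ε : ℝ in 𝓝[>] 0,
      ((rhoO x (rhoO y ρ) + ε • θ) (some none) - (rhoO x (rhoO y ρ) + ε • θ) none) *
        F (msI (blkO i (blkO i blk)) (rhoO x (rhoO y ρ) + ε • θ)) =
      F (msI (blkO i blk) (rhoO x ρ + ε • rhoO (θ none) (fun a => θ (some (some a))))) -
      F (msI (blkO i blk) (rhoO y ρ + ε • rhoO (θ (some none)) (fun a => θ (some (some a))))) := by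
    filter_upwards [hθ, hpe] with ε h3 h4
    have h5 := chart_rec h1 hF blk i (rhoO x (rhoO y ρ) + ε • θ) hne h4 h3.1 h3.2
    rw [h5]
    congr 2
    · congr 1
      funext j
      cases j <;> rfl
    · congr 1
      funext j
      cases j <;> rfl
  have hl := tendsto_msI hF (blkO i (blkO i blk)) (rhoO x (rhoO y ρ)) θ hs2 hpos2
  have hr1 := tendsto_msI hF (blkO i blk) (rhoO x ρ)
    (rhoO (θ none) (fun a => θ (some (some a)))) hs1 (hpos1 x hx)
  have hr2 := tendsto_msI hF (blkO i blk) (rhoO y ρ)
    (rhoO (θ (some none)) (fun a => θ (some (some a)))) hs1 (hpos1 y hy)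
  have hd : Tendsto (fun ε : ℝ => (rhoO x (rhoO y ρ) + ε • θ) (some none) -
      (rhoO x (rhoO y ρ) + ε • θ) none) (𝓝[>] 0) (𝓝 (y - x)) := by
    have h4 : Tendsto (fun ε : ℝ => (y + ε * θ (some none)) - (x + ε * θ none)) (𝓝 0)
        (𝓝 ((y + 0 * θ (some none)) - (x + 0 * θ none))) := by
      refine Continuous.tendsto ?_ 0
      fun_prop
    rw [zero_mul, add_zero, zero_mul, add_zero] at h4
    exact h4.mono_left nhdsWithin_le_nhds
  have hfin := tendsto_nhds_unique_of_eventuallyEq (hd.mul hl) (hr1.sub hr2) heq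
  have e1 : msI (blkO i (blkO i blk)) (rhoO x (rhoO y ρ)) =
      Function.update M i (x ::ₘ y ::ₘ m) := by
    rw [msI_option, msI_option, hρ, Function.update_self, Function.update_idem,
      Function.update_idem, Function.update_self]
  have e2 : ∀ z, msI (blkO i blk) (rhoO z ρ) = Function.update M i (z ::ₘ m) := by
    intro z
    rw [msI_option, hρ, Function.update_self, Function.update_idem]
  rw [e1, e2, e2] at hfin
  exact hfin

end Comp

end Mono
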